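import Pool.Agent.Helper34.R9.Sheet
import Pool.Agent.Helper17.R8.FIN

set_option autoImplicit false

namespace Pool.Helper34.R9

open Pool.Helper17.RS (RS NR ST_GEN cnt_RS_fin)
open Pool.Helper17.R8 (fin_cs)

namespace S17

theorem card_box (m : ℕ) : (Box m).card = m ^ 6 := by
  unfold Box
  rw [Finset.card_product, Fintype.card_piFinset]
  simp only [Finset.card_range, Finset.prod_const, Finset.card_univ, Fintype.card_fin]
  ring

end S17

open Classical in
theorem st_FIN9 : ST_FIN9 := by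
  intro hGEN r Q K A B C hC hK hcert hbnd hsv hpair
  obtain ⟨m0, hS⟩ := hsv
  have hKr : (1 : ℝ) ≤ (K : ℝ) := by exact_mod_cast hK
  have hKpos : (0 : ℝ) < (K : ℝ) := by linarith
  have hmain : ∀ m : ℕ, max m0 1 ≤ m →
      (m : ℝ) ^ 6 / (4 * K) ≤ ((RS r C (m ^ 5)).ncard : ℝ) := by
    intro m hm
    have hm0 : m0 ≤ m := le_trans (le_max_left _ _) hm
    have hm1 : 1 ≤ m := le_trans (le_max_right _ _) hm
    set bad := (Box m).filter (fun T => ∃ q : ℕ, q.Prime ∧ Q < q ∧ (q : ℤ) ^ 4 ∣ A T ∧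
      (q : ℤ) ^ 6 ∣ B T) with hbad
    set G := (Box m).filter (fun T => ¬ ∃ q : ℕ, q.Prime ∧ Q < q ∧ (q : ℤ) ^ 4 ∣ A T ∧
      (q : ℤ) ^ 6 ∣ B T) with hG
    have hbc : 2 * bad.card ≤ m ^ 6 := hS m hm0
    have hsum : bad.card + G.card = m ^ 6 := by
      rw [hbad, hG, Finset.card_filter_add_card_filter_not, S17.card_box]
    have hGc : m ^ 6 ≤ 2 * G.card := by omega
    set φ : (Fin 3 → ℕ) × ℕ → ℤ × ℤ := fun T => (A T, B T) with hφ
    have hcs := fin_cs G φ
    have hpr : ((G ×ˢ G).filter (fun p => φ p.1 = φ p.2)).card ≤ K * m ^ 6 := by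
      refine le_trans (Finset.card_le_card ?_) (hpair m hm1)
      intro p hp
      rw [Finset.mem_filter, Finset.mem_product] at hp ⊢
      refine ⟨⟨(Finset.mem_filter.1 hp.1.1).1, (Finset.mem_filter.1 hp.1.2).1⟩, ?_⟩
      have := hp.2
      simp only [hφ, Prod.mk.injEq] at this
      exact this
    have hsub : ((G.image φ : Finset (ℤ × ℤ)) : Set (ℤ × ℤ)) ⊆ RS r C (m ^ 5) := by
      intro p hp
      rw [Finset.mem_coe, Finset.mem_image] at hp
      obtain ⟨T, hT, rfl⟩ := hp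
      rw [hG, Finset.mem_filter] at hT
      obtain ⟨c1, c2, c3⟩ := hcert T
      obtain ⟨b1, b2⟩ := hbnd m hm1 T hT.1
      refine ⟨c1, ?_, ?_, ?_, ?_⟩
      · rintro q hq ⟨h4, h6⟩
        by_cases hqQ : q ≤ Q
        · exact c2 q hq hqQ ⟨(dvd_pow_self _ (by norm_num)).trans h4,
            (dvd_pow_self _ (by norm_num)).trans h6⟩
        · exact hT.2 ⟨q, hq, by omega, h4, h6⟩
      · have : ((m ^ 5 : ℕ) : ℤ) ^ 4 = (m : ℤ) ^ 20 := by push_cast; ring
        rw [this]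
        exact b1
      · have : ((m ^ 5 : ℕ) : ℤ) ^ 6 = (m : ℤ) ^ 30 := by push_cast; ring
        rw [this]
        exact b2
      · exact c3
    have hle : (G.image φ).card ≤ (RS r C (m ^ 5)).ncard := by
      rw [← Set.ncard_coe_finset]
      exact Set.ncard_le_ncard hsub (cnt_RS_fin r C (m ^ 5))
    have hmpos : (0 : ℝ) < (m : ℝ) ^ 6 := by
      have : (0 : ℝ) < (m : ℝ) := by exact_mod_cast hm1
      positivity
    have e1 : (m : ℝ) ^ 6 ≤ 2 * (G.card : ℝ) := by exact_mod_cast hGc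
    have e2 : (G.card : ℝ) ^ 2 ≤ ((G.image φ).card : ℝ) * (K * (m : ℝ) ^ 6) := by
      have h := hcs.trans (Nat.mul_le_mul_left _ hpr)
      exact_mod_cast h
    have e3 : ((m : ℝ) ^ 6 / 2) ^ 2 ≤ (G.card : ℝ) ^ 2 :=
      pow_le_pow_left₀ (by positivity) (by linarith) 2
    have e4 : ((G.image φ).card : ℝ) ≤ ((RS r C (m ^ 5)).ncard : ℝ) := by exact_mod_cast hle
    have e5 : (m : ℝ) ^ 6 * ((m : ℝ) ^ 6 / (4 * K)) ≤ (m : ℝ) ^ 6 * ((G.image φ).card : ℝ) := by
      have h1 : (m : ℝ) ^ 6 * ((m : ℝ) ^ 6 / (4 * K)) = ((m : ℝ) ^ 6 / 2) ^ 2 / K := by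
        field_simp
        ring
      rw [h1, div_le_iff₀ hKpos]
      calc ((m : ℝ) ^ 6 / 2) ^ 2 ≤ (G.card : ℝ) ^ 2 := e3
        _ ≤ ((G.image φ).card : ℝ) * (K * (m : ℝ) ^ 6) := e2
        _ = (m : ℝ) ^ 6 * ((G.image φ).card : ℝ) * K := by ring
    exact (le_of_mul_le_mul_left e5 hmpos).trans e4
  obtain ⟨c', hc', H₀, hH⟩ := hGEN r C hC (6 / 5) (1 / (4 * K * 64)) (by norm_num)
    (by positivity) ((m0 + 2) ^ 5) (by
      intro N hN
      set x : ℝ := (N : ℝ) ^ ((1 : ℝ) / 5) with hx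
      have hx0 : (0 : ℝ) ≤ x := by positivity
      have hx5 : x ^ 5 = (N : ℝ) := by
        rw [hx, ← Real.rpow_natCast, ← Real.rpow_mul (by positivity)]
        norm_num
      set m : ℕ := ⌊x⌋₊ with hmdef
      have hmx : (m : ℝ) ≤ x := Nat.floor_le hx0
      have hxm : x < (m : ℝ) + 1 := Nat.lt_floor_add_one x
      have hbig : ((m0 : ℝ) + 2) ≤ x := by
        have h1 : (((m0 : ℝ) + 2)) ^ 5 ≤ x ^ 5 := by
          rw [hx5]
          exact_mod_cast hN
        exact le_of_pow_le_pow_left₀ (by norm_num) hx0 h1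
      have hm00 : (0 : ℝ) ≤ (m0 : ℝ) := Nat.cast_nonneg _
      have hm0 : max m0 1 ≤ m := by
        rw [hmdef]
        apply Nat.le_floor
        rw [Nat.cast_max]
        apply max_le
        · linarith
        · rw [Nat.cast_one]
          linarith
      have hm2 : x / 2 ≤ (m : ℝ) := by linarith
      have hmN : m ^ 5 ≤ N := by
        have h1 : (m : ℝ) ^ 5 ≤ x ^ 5 := pow_le_pow_left₀ (Nat.cast_nonneg _) hmx 5
        rw [hx5] at h1
        exact_mod_cast h1
      have hsub : RS r C (m ^ 5) ⊆ RS r C N := by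
        rintro p ⟨a1, a2, a3, a4, a5⟩
        have hle : ((m ^ 5 : ℕ) : ℤ) ≤ (N : ℤ) := by exact_mod_cast hmN
        have h0 : (0 : ℤ) ≤ ((m ^ 5 : ℕ) : ℤ) := by positivity
        refine ⟨a1, a2, a3.trans ?_, a4.trans ?_, a5⟩
        · exact mul_le_mul_of_nonneg_left (pow_le_pow_left₀ h0 hle 4) (by linarith)
        · exact mul_le_mul_of_nonneg_left (pow_le_pow_left₀ h0 hle 6) (by linarith)
      have hcard : ((RS r C (m ^ 5)).ncard : ℝ) ≤ ((RS r C N).ncard : ℝ) := by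
        exact_mod_cast Set.ncard_le_ncard hsub (cnt_RS_fin r C N)
      refine le_trans ?_ ((hmain m hm0).trans hcard)
      have h1 : (x / 2) ^ 6 ≤ (m : ℝ) ^ 6 := pow_le_pow_left₀ (by positivity) hm2 6
      have h2 : (N : ℝ) ^ ((6 : ℝ) / 5) = x ^ 6 := by
        rw [hx, ← Real.rpow_natCast, ← Real.rpow_mul (by positivity)]
        norm_num
      rw [h2]
      have h3 : (x / 2) ^ 6 = x ^ 6 / 64 := by
        rw [div_pow]
        norm_num
      rw [h3] at h1
      rw [le_div_iff₀ (by positivity)]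
      have h4 : 1 / (4 * (K : ℝ) * 64) * x ^ 6 * (4 * K) = x ^ 6 / 64 := by
        field_simp
      rw [h4]
      exact h1)
  refine ⟨c', hc', H₀, fun H hH' => ?_⟩
  have := hH H hH'
  have he : ((6 : ℝ) / 5) / 12 = 1 / 10 := by norm_num
  rwa [he] at this

end Pool.Helper34.R9
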