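import Pool.Agent.Helper34.R9.SheetB
import Pool.Agent.Helper29.R8.PAIR

/-! # Row SIEVEB of the sheet for `r = 9` (MP_798d7d_nt) -/

set_option autoImplicit false

namespace Pool.Helper34.R9

open Pool.Helper17.R8 (ek q4 q3 q2 q1 q0 fI fJ pI pJ ss ub)
open Polynomial

namespace S17V

section
variable {R S : Type*} [CommRing R] [CommRing S]

theorem map_fJh (φ : R →+* S) (e : ℕ → R) (κ E : R) :
    φ (fJh e κ E) = fJh (fun k => φ (e k)) (φ κ) (φ E) := by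
  unfold fJh
  simp only [map_add, map_sub, map_mul, map_pow, map_ofNat]

theorem map_EB (φ : R →+* S) (e : ℕ → R) (x : R) :
    φ (EB e x) = EB (fun k => φ (e k)) (φ x) := by
  unfold EB g1
  simp only [map_add, map_sub, map_mul, map_pow, map_ofNat]

theorem ek_smul (c : R) (s : Fin 8 → R) (k : ℕ) : ek (fun i => c * s i) k = c ^ k * ek s k := by
  unfold ek
  rw [Finset.mul_sum]
  refine Finset.sum_congr rfl fun T hT => ?_
  rw [Finset.prod_mul_distrib, Finset.prod_const, (Finset.mem_powersetCard.1 hT).2]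

theorem fJh_smul (c : R) (e : ℕ → R) (κ E : R) :
    fJh (fun k => c ^ k * e k) κ (c ^ 6 * E) = c ^ 30 * fJh e κ E := by
  unfold fJh
  ring

end

/-- the polynomials in `a 0` -/
noncomputable def up (b : Fin 5 → ℕ) : Fin 6 → ℤ[X] :=
  ![C (ub 0) + C MB * X, C (ub 1 + MB * (b 0 : ℤ)) + C MB * X, C (ub 2 + MB * (b 1 : ℤ)) + C MB * X,
    C (ub 3 + MB * (b 2 : ℤ)) + C MB * X, C (ub 4 + MB * (b 3 : ℤ)) + C MB * X,
    C (ub 5 + MB * (b 4 : ℤ)) + C MB * X]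

noncomputable def WW (b : Fin 5 → ℕ) : ℤ[X] :=
  fJh (ek (ss (up b))) (C 4) (EB (ek (ss (up b))) (ss (up b) 7))

theorem up_eval (a : Fin 6 → ℕ) :
    (fun i => (up (fun j => a j.succ) i).eval (a 0 : ℤ)) = uB a := by
  funext i
  fin_cases i
  · simp [up, uB]
  · simp [up, uB]; ring
  · simp [up, uB]; ring
  · simp [up, uB]; ring
  · simp [up, uB]; ring
  · simp [up, uB]; ring

theorem ss_eval (a : Fin 6 → ℕ) (k : Fin 8) :
    (ss (up (fun j => a j.succ)) k).eval (a 0 : ℤ) = ss (uB a) k := by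
  have h1 := congrFun (Pool.Helper29.R8.map_ss (evalRingHom (a 0 : ℤ))
    (up (fun j => a j.succ))) k
  have h2 : (fun i => (evalRingHom (a 0 : ℤ)) (up (fun j => a j.succ) i)) = uB a := by
    rw [← up_eval a]
    funext i
    rw [coe_evalRingHom]
  rw [h2] at h1
  rw [← h1, coe_evalRingHom]

theorem WW_eval (a : Fin 6 → ℕ) : (WW (fun j => a j.succ)).eval (a 0 : ℤ) =
    fJh (ek (ss (uB a))) 4 (EB (ek (ss (uB a))) (ss (uB a) 7)) := by
  have h0 : ∀ p : ℤ[X], p.eval (a 0 : ℤ) = (evalRingHom (a 0 : ℤ)) p := fun p => by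
    rw [coe_evalRingHom]
  have h1 : ∀ k, (evalRingHom (a 0 : ℤ)) (ek (ss (up (fun j => a j.succ))) k) =
      ek (ss (uB a)) k := by
    intro k
    rw [Pool.Helper29.R8.map_ek]
    congr 1
    funext i
    rw [← h0, ss_eval]
  have h3 : (fun k => (evalRingHom (a 0 : ℤ)) (ek (ss (up (fun j => a j.succ))) k)) =
      ek (ss (uB a)) := by
    funext k
    exact h1 k
  unfold WW
  rw [h0, map_fJh, map_EB, h3, ← h0 (ss (up (fun j => a j.succ)) 7), ss_eval]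
  simp

/-- the direction of `a 0` -/
def dl : Fin 8 → ℤ := ![1, 1, 1, 1, 1, 1, 0, -6]

theorem up_lin (b : Fin 5 → ℕ) (k : Fin 8) : (ss (up b) k).natDegree ≤ 1 ∧
    (ss (up b) k).coeff 1 = MB * dl k := by
  have h : ∃ c : ℤ, ss (up b) k = C (MB * dl k) * X + C c := by
    fin_cases k
    · exact ⟨ub 0, by simp [ss, up, dl]; ring⟩
    · exact ⟨ub 1 + MB * (b 0 : ℤ), by simp [ss, up, dl]; ring⟩
    · exact ⟨ub 2 + MB * (b 1 : ℤ), by simp [ss, up, dl]; ring⟩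
    · exact ⟨ub 3 + MB * (b 2 : ℤ), by simp [ss, up, dl]; ring⟩
    · exact ⟨ub 4 + MB * (b 3 : ℤ), by simp [ss, up, dl]; ring⟩
    · exact ⟨ub 5 + MB * (b 4 : ℤ), by simp [ss, up, dl]; ring⟩
    · exact ⟨1, by simp [ss, up, dl]⟩
    · exact ⟨-(ub 0 + (ub 1 + MB * (b 0 : ℤ)) + (ub 2 + MB * (b 1 : ℤ)) +
        (ub 3 + MB * (b 2 : ℤ)) + (ub 4 + MB * (b 3 : ℤ)) + (ub 5 + MB * (b 4 : ℤ)) + 1), by
          simp [ss, up, dl]; ring⟩
  obtain ⟨c, hc⟩ := h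
  rw [hc]
  refine ⟨by compute_degree, ?_⟩
  rw [coeff_add, coeff_C_mul, coeff_X_one, coeff_C_of_ne_zero (by norm_num)]
  ring

/-- leading coefficients -/
def LD (p : ℤ[X]) (n : ℕ) (c : ℤ) : Prop := p.natDegree ≤ n ∧ p.coeff n = c

theorem LD.add {p q : ℤ[X]} {n : ℕ} {c d : ℤ} (hp : LD p n c) (hq : LD q n d) :
    LD (p + q) n (c + d) :=
  ⟨natDegree_add_le_of_le hp.1 hq.1 |>.trans (by simp), by rw [coeff_add, hp.2, hq.2]⟩

theorem LD.sub {p q : ℤ[X]} {n : ℕ} {c d : ℤ} (hp : LD p n c) (hq : LD q n d) :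
    LD (p - q) n (c - d) :=
  ⟨natDegree_sub_le_of_le hp.1 hq.1 |>.trans (by simp), by rw [coeff_sub, hp.2, hq.2]⟩

theorem LD.mul {p q : ℤ[X]} {m n : ℕ} {c d : ℤ} (hp : LD p m c) (hq : LD q n d) :
    LD (p * q) (m + n) (c * d) :=
  ⟨natDegree_mul_le_of_le hp.1 hq.1, by
    rw [coeff_mul_add_eq_of_natDegree_le hp.1 hq.1, hp.2, hq.2]⟩

theorem LD.pow {p : ℤ[X]} {m : ℕ} {c : ℤ} (hp : LD p m c) (k : ℕ) :
    LD (p ^ k) (k * m) (c ^ k) :=
  ⟨natDegree_pow_le_of_le k hp.1, by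
    have h := coeff_pow_of_natDegree_le (m := k) hp.1
    rw [hp.2] at h
    exact h⟩

theorem LD.four {p : ℤ[X]} {m : ℕ} {c : ℤ} (hp : LD p m c) : LD (4 * p) m (4 * c) := by
  have h : (4 : ℤ[X]) = C 4 := by simp
  rw [h]
  exact ⟨(natDegree_C_mul_le _ _).trans hp.1, by rw [coeff_C_mul, hp.2]⟩

theorem EB_LD (e : ℕ → ℤ[X]) (x : ℤ[X]) (v : ℕ → ℤ) (y : ℤ)
    (he : ∀ k, LD (e k) k (v k)) (hx : LD x 1 y) : LD (EB e x) 6 (EB v y) := by
  have hx3 : LD (x ^ 3) 3 (y ^ 3) := hx.pow 3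
  have hx2 : LD (x ^ 2) 2 (y ^ 2) := hx.pow 2
  have hg : LD (g1 e x) 3 (g1 v y) := by
    unfold g1
    exact (hx3.add ((he 2).mul hx)).sub (he 3)
  unfold EB
  have h1 : LD (g1 e x ^ 2) 6 (g1 v y ^ 2) := hg.pow 2
  have h2 : LD (x ^ 3 * g1 e x) 6 (y ^ 3 * g1 v y) := hx3.mul hg
  have h3 : LD (e 4 * x ^ 2) 6 (v 4 * y ^ 2) := (he 4).mul hx2
  have h4 : LD (e 5 * x) 6 (v 5 * y) := (he 5).mul hx
  exact h1.sub ((h2.add h3).sub h4).four

theorem EB_smul (c : ℤ) (v : ℕ → ℤ) (y : ℤ) :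
    EB (fun k => c ^ k * v k) (c * y) = c ^ 6 * EB v y := by
  unfold EB g1
  ring

theorem WW_deg (hE : ST_EKL) (hL : ST_LEAD) (hV : ST_VTOP) (b : Fin 5 → ℕ) :
    (WW b).natDegree ≤ 30 ∧ (WW b).coeff 30 = MB ^ 30 * -30433622863380480 := by
  have h1 := hE (ss (up b)) (fun k => MB * dl k) (up_lin b)
  have h2 : ∀ k, LD (ek (ss (up b)) k) k (MB ^ k * ek dl k) := by
    intro k
    refine ⟨(h1 k).1, ?_⟩
    rw [(h1 k).2, ek_smul]
  have h3 := EB_LD (ek (ss (up b))) (ss (up b) 7) (fun k => MB ^ k * ek dl k) (MB * dl 7) h2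
    (up_lin b 7)
  rw [EB_smul] at h3
  have h6 := hL (ek (ss (up b))) (EB (ek (ss (up b))) (ss (up b) 7)) (fun k => MB ^ k * ek dl k)
    (MB ^ 6 * EB (ek dl) (dl 7)) 4 (fun k _ => h2 k) h3.1 h3.2
  unfold WW
  refine ⟨h6.1, ?_⟩
  rw [h6.2, fJh_smul]
  have h7 : fJh (ek dl) 4 (EB (ek dl) (dl 7)) = -30433622863380480 := hV
  rw [h7]

/-- big primes do not divide small numbers -/
theorem nd_small (q : ℕ) (hq : QB < q) (n : ℤ) (h0 : n ≠ 0) (h1 : |n| ≤ 10 ^ 20) :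
    ¬ (q : ℤ) ∣ n := by
  intro h
  have h2 := Int.le_of_dvd (abs_pos.2 h0) ((dvd_abs _ _).2 h)
  rw [QB_eq] at hq
  have h3 : ((10 : ℤ) ^ 30) < q := by exact_mod_cast hq
  have h4 : (10 : ℤ) ^ 20 < 10 ^ 30 := by norm_num
  linarith

theorem nd_MB (q : ℕ) (hp : q.Prime) (hq : QB < q) : ¬ (q : ℤ) ∣ MB := by
  intro h
  unfold MB at h
  rcases (Nat.prime_iff_prime_int.1 hp).dvd_or_dvd h with h1 | h1
  · exact nd_small q hq 1728 (by norm_num) (by norm_num) h1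
  · have h2 : q ∣ Nat.factorial QB := Int.natCast_dvd_natCast.1 h1
    rw [hp.dvd_factorial] at h2
    omega

end S17V

open S17V in
theorem st_SIEVEB (hS : ST_SVG) (hE : ST_EKL) (hL : ST_LEAD) (hV : ST_VTOP) (h1 : ST_RES1)
    (hρ : ST_RHOB) (hB : ST_BNDB) (hR : ST_RELB) : ST_SIEVEB := by
  obtain ⟨C, hC, hBd⟩ := hB
  have hfI : ∀ m T, fI (ek (ss (uB T.1))) (tB m T) = -(48 * aB m T) := by
    intro m T
    have := (hR m T).2.2.2.1
    linarith
  have hfJ : ∀ m T, fJ (ek (ss (uB T.1))) (tB m T) = -(1728 * bB m T) := by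
    intro m T
    have := (hR m T).2.2.2.2.1
    linarith
  refine hS 5 4 QB 30 240 MB 4 1728 zB (fun a => pJ (ek (ss (uB a))))
    (fun a => EB (ek (ss (uB a))) (ss (uB a) 7)) (fun a => rho (ek (ss (uB a)))) WW aB bB tB C
    (by norm_num) (by rw [QB_eq]; norm_num) (by norm_num) hC ?_ ?_ ?_ ?_ ?_ ?_ ?_ ?_ ?_
  · intro q hp hq
    have hP := Nat.prime_iff_prime_int.1 hp
    refine ⟨nd_MB q hp hq, nd_small q hq 4 (by norm_num) (by norm_num),
      nd_small q hq 1728 (by norm_num) (by norm_num), ?_⟩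
    intro b
    rw [(WW_deg hE hL hV b).2]
    intro h
    rcases hP.dvd_or_dvd h with h2 | h2
    · exact nd_MB q hp hq (hP.dvd_of_dvd_pow h2)
    · exact nd_small q hq (-30433622863380480) (by norm_num) (by norm_num) h2
  · intro a
    exact Pool.Helper29.R8.natDegree_pJ _
  · intro b
    exact (WW_deg hE hL hV b).1
  · intro m T
    exact (hR m T).2.1
  · intro m T q k h
    rw [Pool.Helper29.R8.eval_pJ, hfJ m T]
    exact (Dvd.dvd.mul_left h _).neg_right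
  · intro a q hp hq t ht hJ
    rw [WW_eval]
    rw [Pool.Helper29.R8.eval_pJ] at hJ
    obtain ⟨E, hEdef⟩ : ∃ E, E = EB (ek (ss (uB a))) (ss (uB a) 7) := ⟨_, rfl⟩
    rw [← hEdef] at ht ⊢
    have e1 : ((4 * t : ℤ) : ZMod q) = ((E : ℤ) : ZMod q) := by
      have := (ZMod.intCast_zmod_eq_zero_iff_dvd _ q).2 ht
      push_cast at this ⊢
      exact sub_eq_zero.1 this
    have e2 := map_fJh (Int.castRingHom (ZMod q)) (ek (ss (uB a))) 4 E
    have e3 := map_fJh (Int.castRingHom (ZMod q)) (ek (ss (uB a))) 4 (4 * t)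
    have e4 : (Int.castRingHom (ZMod q)) E = (Int.castRingHom (ZMod q)) (4 * t) := e1.symm
    rw [e4, ← e3, chk_fJh] at e2
    have e5 : (Int.castRingHom (ZMod q)) (4 ^ 5 * fJ (ek (ss (uB a))) t) = 0 :=
      (ZMod.intCast_zmod_eq_zero_iff_dvd _ q).2 (Dvd.dvd.mul_left hJ _)
    rw [e5] at e2
    exact (ZMod.intCast_zmod_eq_zero_iff_dvd _ q).1 e2
  · intro m T q hp hq hA hB'
    refine h1 (ek (ss (uB T.1))) (tB m T) q ?_ ?_
    · rw [hfI m T]
      exact (Dvd.dvd.mul_left hA _).neg_right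
    · rw [hfJ m T]
      exact (Dvd.dvd.mul_left hB' _).neg_right
  · intro a
    exact hρ a
  · intro m hm T hT
    exact (hBd m hm T hT).2.2.2.2

end Pool.Helper34.R9
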