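import Pool.Agent.Helper17.R9.FINB
import Pool.Agent.Helper17.R9.SIEVEB
import Pool.Agent.Helper58.RS.GEN
import Pool.Agent.Helper44.R8.VIE
import Pool.Agent.Helper44.R8.RANKQ
import Pool.Agent.Helper44.R8.DDIV
import Pool.Agent.Helper95.R8.PT
import Pool.Agent.Helper53.R8.Curve
import Pool.Agent.Helper25.R8.LINZ
import Pool.Agent.Helper25.R8.INJ
import Pool.Agent.Helper76.R9.CUBP
import Pool.Agent.Helper46.R9.RELB
import Pool.Agent.Helper46.R9.CERTB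
import Pool.Agent.Helper25.R9.BNDB
import Pool.Agent.Helper44.R9.WINB
import Pool.Agent.Helper34.R9.PR2B
import Pool.Agent.Helper29.R9.PAIRB
import Pool.Agent.Helper61.R9.ROOT
import Pool.Agent.Helper44.R9.SV1
import Pool.Agent.Helper61.R9.SV3
import Pool.Agent.Helper72.R9.SVG
import Pool.Agent.Helper66.R9.RES
import Pool.Agent.Helper66.R9.RHOB
import Pool.Agent.Helper2.R9.RES2
import Pool.Agent.Helper25.R9.EKL
import Pool.Agent.Helper76.R9.LEAD
import Pool.Agent.Helper63.R9.VTOP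

set_option autoImplicit false

namespace Pool.Helper34.R9

open Pool.Helper17.R8 (st_VIE st_PT st_RANKQ st_DDIV st_INJ st_LINZ)

theorem asm_bndb : ST_BNDB := st_BNDB st_RELB st_RES2

theorem asm_certb : ST_CERTB := st_CERTB st_RELB st_VIE st_PT (st_CUBP st_PT) st_RANKQ

theorem asm_pairb : ST_PAIRB :=
  st_PAIRB (st_PRG Pool.Agent.Helper53.R8.curve) st_RELB (st_WINB st_RELB asm_bndb) st_PR2B
    (st_INJ st_LINZ st_VIE)

theorem asm_svg : ST_SVG := st_SVG st_ROOT (st_SV1 st_DDIV) (st_SV3 st_ROOT)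

theorem asm_rhob : ST_RHOB := st_RHOB st_RELB st_RES3

theorem asm_sieveb : ST_SIEVEB :=
  st_SIEVEB asm_svg st_EKL st_LEAD st_VTOP st_RES1 asm_rhob asm_bndb st_RELB

/-- Rank nine: `N_9(H) ≥ H ^ (1/8 - ε)`. -/
theorem rank_nine : ∀ ε : ℝ, 0 < ε → ∃ H₀ : ℝ, ∀ H : ℝ, H₀ ≤ H →
    H ^ ((1 : ℝ) / 8 - ε) ≤ (Pool.Helper17.RS.NR 9 H : ℝ) := by
  obtain ⟨C, hC, hB⟩ := asm_bndb
  exact st_FINB Pool.Helper17.RS.st_GEN 9 QB aB bB C hC asm_certb
    (fun m hm T hT => ⟨(hB m hm T hT).2.2.1, (hB m hm T hT).2.2.2.1⟩) asm_sieveb asm_pairb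

end Pool.Helper34.R9
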