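import Pool.Agent.Helper34.R9.SheetB
import Pool.Agent.Helper17.R8.FIN

set_option autoImplicit false

namespace Pool.Helper34.R9

open Pool.Helper17.RS (RS NR ST_GEN cnt_RS_fin)
open Pool.Helper17.R8 (fin_cs)

namespace S17B

theorem card_boxG (k l m : ℕ) : (BoxG k l m).card = m ^ (k + l) := by
  unfold BoxG
  rw [Finset.card_product, Fintype.card_piFinset]
  simp only [Finset.card_range, Finset.prod_const, Finset.card_univ, Fintype.card_fin]
  rw [pow_add]

end S17B

open Classical in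
theorem st_FINB : ST_FINB := by
  intro hGEN r Q A B C hC hcert hbnd hsv hpair ε hε
  obtain ⟨m0, hS⟩ := hsv
  set δ : ℝ := min ε 1 with hδ
  have hδ0 : 0 < δ := lt_min hε one_pos
  have hδ1 : δ ≤ 1 := min_le_right _ _
  have hδε : δ ≤ ε := min_le_left _ _
  obtain ⟨K, hKpos, hP⟩ := hpair δ hδ0
  have hmain : ∀ n : ℕ, max m0 1 ≤ n →
      (n : ℝ) ^ (30 - 3 * δ) / (4 * K) ≤ ((RS r C (n ^ 20)).ncard : ℝ) := by
    intro n hn
    have hn0 : m0 ≤ n := le_trans (le_max_left _ _) hn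
    have hn1 : 1 ≤ n := le_trans (le_max_right _ _) hn
    set m : ℕ := n ^ 3 with hmn
    have hnm : n ≤ m := by
      rw [hmn]
      exact Nat.le_self_pow (by norm_num) n
    have hm0 : m0 ≤ m := hn0.trans hnm
    have hm1 : 1 ≤ m := hn1.trans hnm
    set bad := (BoxG 6 4 m).filter (fun T => ∃ q : ℕ, q.Prime ∧ Q < q ∧ (q : ℤ) ^ 4 ∣ A m T ∧
      (q : ℤ) ^ 6 ∣ B m T) with hbad
    set G := (BoxG 6 4 m).filter (fun T => ¬ ∃ q : ℕ, q.Prime ∧ Q < q ∧ (q : ℤ) ^ 4 ∣ A m T ∧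
      (q : ℤ) ^ 6 ∣ B m T) with hG
    have hbc : 2 * bad.card ≤ m ^ 10 := hS m hm0
    have hsum : bad.card + G.card = m ^ 10 := by
      rw [hbad, hG, Finset.card_filter_add_card_filter_not, S17B.card_boxG]
    have hGc : m ^ 10 ≤ 2 * G.card := by omega
    set φ : (Fin 6 → ℕ) × ℕ → ℤ × ℤ := fun T => (A m T, B m T) with hφ
    have hcs := fin_cs G φ
    have hpr : (((G ×ˢ G).filter (fun p => φ p.1 = φ p.2)).card : ℝ) ≤
        K * (m : ℝ) ^ (10 + δ) := by
      refine le_trans ?_ (hP m hm1)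
      have : ((G ×ˢ G).filter (fun p => φ p.1 = φ p.2)).card ≤
          ((BoxG 6 4 m ×ˢ BoxG 6 4 m).filter (fun p => A m p.1 = A m p.2 ∧
            B m p.1 = B m p.2)).card := by
        refine Finset.card_le_card ?_
        intro p hp
        rw [Finset.mem_filter, Finset.mem_product] at hp ⊢
        refine ⟨⟨(Finset.mem_filter.1 hp.1.1).1, (Finset.mem_filter.1 hp.1.2).1⟩, ?_⟩
        have := hp.2
        simp only [hφ, Prod.mk.injEq] at this
        exact this
      exact_mod_cast this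
    have hn1z : (1 : ℤ) ≤ (n : ℤ) := by exact_mod_cast hn1
    have hsub : ((G.image φ : Finset (ℤ × ℤ)) : Set (ℤ × ℤ)) ⊆ RS r C (n ^ 20) := by
      intro p hp
      rw [Finset.mem_coe, Finset.mem_image] at hp
      obtain ⟨T, hT, rfl⟩ := hp
      rw [hG, Finset.mem_filter] at hT
      obtain ⟨c1, c2, c3⟩ := hcert m T
      obtain ⟨b1, b2⟩ := hbnd m hm1 T hT.1
      refine ⟨c1, ?_, ?_, ?_, ?_⟩
      · rintro q hq ⟨h4, h6⟩
        by_cases hqQ : q ≤ Q
        · exact c2 q hq hqQ ⟨(dvd_pow_self _ (by norm_num)).trans h4,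
            (dvd_pow_self _ (by norm_num)).trans h6⟩
        · exact hT.2 ⟨q, hq, by omega, h4, h6⟩
      · refine b1.trans (mul_le_mul_of_nonneg_left ?_ (by linarith))
        have h1 : (m : ℤ) ^ 26 = (n : ℤ) ^ 78 := by
          rw [hmn]
          push_cast
          ring
        have h2 : ((n ^ 20 : ℕ) : ℤ) ^ 4 = (n : ℤ) ^ 80 := by
          push_cast
          ring
        rw [h1, h2]
        exact pow_le_pow_right₀ hn1z (by norm_num)
      · refine b2.trans (le_of_eq ?_)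
        have h1 : (m : ℤ) ^ 40 = ((n ^ 20 : ℕ) : ℤ) ^ 6 := by
          rw [hmn]
          push_cast
          ring
        rw [h1]
      · exact c3
    have hle : (G.image φ).card ≤ (RS r C (n ^ 20)).ncard := by
      rw [← Set.ncard_coe_finset]
      exact Set.ncard_le_ncard hsub (cnt_RS_fin r C (n ^ 20))
    have hmr : (0 : ℝ) < (m : ℝ) := by exact_mod_cast hm1
    have hnr : (0 : ℝ) < (n : ℝ) := by exact_mod_cast hn1
    have e1 : (m : ℝ) ^ 10 ≤ 2 * (G.card : ℝ) := by exact_mod_cast hGc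
    have e2 : (G.card : ℝ) ^ 2 ≤ ((G.image φ).card : ℝ) * (K * (m : ℝ) ^ (10 + δ)) := by
      have h : (G.card : ℝ) ^ 2 ≤ ((G.image φ).card : ℝ) *
          (((G ×ˢ G).filter (fun p => φ p.1 = φ p.2)).card : ℝ) := by exact_mod_cast hcs
      exact h.trans (mul_le_mul_of_nonneg_left hpr (Nat.cast_nonneg _))
    have e3 : ((m : ℝ) ^ 10 / 2) ^ 2 ≤ (G.card : ℝ) ^ 2 :=
      pow_le_pow_left₀ (by positivity) (by linarith) 2
    have e4 : ((G.image φ).card : ℝ) ≤ ((RS r C (n ^ 20)).ncard : ℝ) := by exact_mod_cast hle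
    have hmp : (0 : ℝ) < (m : ℝ) ^ (10 + δ) := by positivity
    have e5 : (m : ℝ) ^ (10 - δ) / (4 * K) ≤ ((G.image φ).card : ℝ) := by
      rw [div_le_iff₀ (by positivity)]
      have h1 : (m : ℝ) ^ (10 - δ) * (m : ℝ) ^ (10 + δ) = ((m : ℝ) ^ 10) ^ 2 := by
        rw [← Real.rpow_add hmr, ← pow_mul, ← Real.rpow_natCast]
        congr 1
        push_cast
        ring
      have h2 : (m : ℝ) ^ (10 + δ) * (m : ℝ) ^ (10 - δ) ≤
          (m : ℝ) ^ (10 + δ) * (((G.image φ).card : ℝ) * (4 * K)) := by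
        calc (m : ℝ) ^ (10 + δ) * (m : ℝ) ^ (10 - δ) = ((m : ℝ) ^ 10) ^ 2 := by
              rw [mul_comm]
              exact h1
          _ = 4 * ((m : ℝ) ^ 10 / 2) ^ 2 := by ring
          _ ≤ 4 * (((G.image φ).card : ℝ) * (K * (m : ℝ) ^ (10 + δ))) := by linarith
          _ = (m : ℝ) ^ (10 + δ) * (((G.image φ).card : ℝ) * (4 * K)) := by ring
      exact le_of_mul_le_mul_left h2 hmp
    have e6 : (m : ℝ) ^ (10 - δ) = (n : ℝ) ^ (30 - 3 * δ) := by
      have h1 : (m : ℝ) = (n : ℝ) ^ (3 : ℝ) := by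
        rw [hmn]
        push_cast
        rw [← Real.rpow_natCast]
        norm_num
      rw [h1, ← Real.rpow_mul hnr.le]
      congr 1
      ring
    rw [← e6]
    exact e5.trans e4
  have hexp : (0 : ℝ) < 30 - 3 * δ := by linarith
  obtain ⟨c', hc', H₀, hH⟩ := hGEN r C hC ((30 - 3 * δ) / 20)
    (1 / (4 * K) * (1 / 2) ^ (30 - 3 * δ)) (by positivity)
    (by positivity) ((m0 + 2) ^ 20) (by
      intro N hN
      set x : ℝ := (N : ℝ) ^ ((1 : ℝ) / 20) with hx
      have hx0 : (0 : ℝ) ≤ x := by positivity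
      have hx5 : x ^ 20 = (N : ℝ) := by
        rw [hx, ← Real.rpow_natCast, ← Real.rpow_mul (by positivity)]
        norm_num
      set n : ℕ := ⌊x⌋₊ with hndef
      have hnx : (n : ℝ) ≤ x := Nat.floor_le hx0
      have hxn : x < (n : ℝ) + 1 := Nat.lt_floor_add_one x
      have hbig : ((m0 : ℝ) + 2) ≤ x := by
        have h1 : (((m0 : ℝ) + 2)) ^ 20 ≤ x ^ 20 := by
          rw [hx5]
          exact_mod_cast hN
        exact le_of_pow_le_pow_left₀ (by norm_num) hx0 h1
      have hm00 : (0 : ℝ) ≤ (m0 : ℝ) := Nat.cast_nonneg _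
      have hn0 : max m0 1 ≤ n := by
        rw [hndef]
        apply Nat.le_floor
        rw [Nat.cast_max]
        apply max_le
        · linarith
        · rw [Nat.cast_one]
          linarith
      have hn2 : x / 2 ≤ (n : ℝ) := by linarith
      have hnN : n ^ 20 ≤ N := by
        have h1 : (n : ℝ) ^ 20 ≤ x ^ 20 := pow_le_pow_left₀ (Nat.cast_nonneg _) hnx 20
        rw [hx5] at h1
        exact_mod_cast h1
      have hsub : RS r C (n ^ 20) ⊆ RS r C N := by
        rintro p ⟨a1, a2, a3, a4, a5⟩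
        have hle : ((n ^ 20 : ℕ) : ℤ) ≤ (N : ℤ) := by exact_mod_cast hnN
        have h0 : (0 : ℤ) ≤ ((n ^ 20 : ℕ) : ℤ) := by positivity
        refine ⟨a1, a2, a3.trans ?_, a4.trans ?_, a5⟩
        · exact mul_le_mul_of_nonneg_left (pow_le_pow_left₀ h0 hle 4) (by linarith)
        · exact mul_le_mul_of_nonneg_left (pow_le_pow_left₀ h0 hle 6) (by linarith)
      have hcard : ((RS r C (n ^ 20)).ncard : ℝ) ≤ ((RS r C N).ncard : ℝ) := by
        exact_mod_cast Set.ncard_le_ncard hsub (cnt_RS_fin r C N)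
      refine le_trans ?_ ((hmain n hn0).trans hcard)
      have h1 : (x / 2) ^ (30 - 3 * δ) ≤ (n : ℝ) ^ (30 - 3 * δ) :=
        Real.rpow_le_rpow (by positivity) hn2 hexp.le
      have h2 : (N : ℝ) ^ ((30 - 3 * δ) / 20) = x ^ (30 - 3 * δ) := by
        rw [hx, ← Real.rpow_mul (by positivity)]
        congr 1
        ring
      rw [h2]
      have h3 : (x / 2) ^ (30 - 3 * δ) = (1 / 2 : ℝ) ^ (30 - 3 * δ) * x ^ (30 - 3 * δ) := by
        rw [← Real.mul_rpow (by norm_num) hx0]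
        congr 1
        ring
      rw [h3] at h1
      rw [le_div_iff₀ (by positivity)]
      have h4 : 1 / (4 * K) * (1 / 2 : ℝ) ^ (30 - 3 * δ) * x ^ (30 - 3 * δ) * (4 * K) =
          (1 / 2 : ℝ) ^ (30 - 3 * δ) * x ^ (30 - 3 * δ) := by
        field_simp
      rw [h4]
      exact h1)
  have hgap : (0 : ℝ) < ε - δ / 80 := by linarith
  refine ⟨max H₀ (max 1 ((1 / c') ^ (1 / (ε - δ / 80)))), fun H hH' => ?_⟩
  have e1 : H₀ ≤ H := le_trans (le_max_left _ _) hH'
  have e2 : (1 : ℝ) ≤ H := le_trans (le_trans (le_max_left _ _) (le_max_right _ _)) hH'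
  have e3 : (1 / c') ^ (1 / (ε - δ / 80)) ≤ H :=
    le_trans (le_trans (le_max_right _ _) (le_max_right _ _)) hH'
  have hpos : (0 : ℝ) < H := by linarith
  have e4 : 1 / c' ≤ H ^ (ε - δ / 80) := by
    have := Real.rpow_le_rpow (by positivity) e3 hgap.le
    rwa [← Real.rpow_mul (by positivity), one_div_mul_cancel hgap.ne', Real.rpow_one] at this
  refine le_trans ?_ (hH H e1)
  have e5 : H ^ ((30 - 3 * δ) / 20 / 12) = H ^ ((1 : ℝ) / 8 - ε) * H ^ (ε - δ / 80) := by
    rw [← Real.rpow_add hpos]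
    congr 1
    ring
  rw [e5]
  have e6 : (1 : ℝ) ≤ c' * H ^ (ε - δ / 80) := by
    have := mul_le_mul_of_nonneg_left e4 hc'.le
    rwa [mul_one_div_cancel hc'.ne'] at this
  have e7 : (0 : ℝ) ≤ H ^ ((1 : ℝ) / 8 - ε) := by positivity
  nlinarith

end Pool.Helper34.R9
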